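import Pool.Agent.Helper446.Comp
import Pool.Agent.Helper750.DC.CP

/-!
A computable matrix `W` such that the set of all `k` with `∃ j, ∀ t, W k j t = false` is
unbounded but, together with `0`, is not the range of a limitwise monotonic function.
-/

set_option autoImplicit false

namespace Pool.Agent.X234.IA

open Encodable Nat.Partrec Pool.Agent.Helper446.RE Pool.Agent.Helper750.DC

/-- stage `t` approximation to the `e`-th r.e. relation -/
def Hs (e x r t : ℕ) : Bool := wst (ℕ × ℕ) e t (x, r)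

theorem Hs_mono {e x r s t : ℕ} (hst : s ≤ t) (h : Hs e x r s = true) : Hs e x r t = true :=
  wst_mono hst h

theorem Hs_comp {α : Type*} [Primcodable α] {e x r t : α → ℕ} (he : Computable e)
    (hx : Computable x) (hr : Computable r) (ht : Computable t) :
    Computable fun a => Hs (e a) (x a) (r a) (t a) :=
  (wst_comp (α := ℕ × ℕ)).comp ((he.pair ht).pair (hx.pair hr))

/-- event: at stage `n.unpair.2` the element `n.unpair.1` has value at least `2e+2`. -/
def Ev (e n : ℕ) : Prop := ∃ r < n.unpair.2 + 1, 2 * e + 2 ≤ r ∧ Hs e n.unpair.1 r n.unpair.2 = true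

/-- the value excluded by strategy `e` at stage `t` is `k` -/
def V (e k t : ℕ) : Prop := ∃ n < t + 1, Ev e n ∧ (∀ m < n, ¬ Ev e m) ∧
  (k ≤ t ∧ Hs e n.unpair.1 k t = true ∧ ∀ r < t + 1, Hs e n.unpair.1 r t = true → r ≤ k)

theorem Ev_comp {α : Type*} [Primcodable α] {e n : α → ℕ} (he : Computable e)
    (hn : Computable n) : ComputablePred fun a => Ev (e a) (n a) := by
  unfold Ev
  refine cp_ex_lt (p := fun a r => 2 * e a + 2 ≤ r ∧ Hs (e a) (n a).unpair.1 r (n a).unpair.2 = true)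
    ?_ (by fun_prop)
  refine cp_and (cp_le (by fun_prop) (by fun_prop)) ?_
  exact cp_eq (Hs_comp (by fun_prop) (by fun_prop) (by fun_prop) (by fun_prop)) (by fun_prop)

theorem V_comp {α : Type*} [Primcodable α] {e k t : α → ℕ} (he : Computable e)
    (hk : Computable k) (ht : Computable t) : ComputablePred fun a => V (e a) (k a) (t a) := by
  unfold V
  refine cp_ex_lt (p := fun a n => Ev (e a) n ∧ (∀ m < n, ¬ Ev (e a) m) ∧
    (k a ≤ t a ∧ Hs (e a) n.unpair.1 (k a) (t a) = true ∧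
      ∀ r < t a + 1, Hs (e a) n.unpair.1 r (t a) = true → r ≤ k a)) ?_ (by fun_prop)
  refine cp_and (Ev_comp (by fun_prop) (by fun_prop)) (cp_and ?_ (cp_and ?_ (cp_and ?_ ?_)))
  · refine cp_all_lt (p := fun (a : α × ℕ) m => ¬ Ev (e a.1) m) ?_ (by fun_prop)
    exact cp_not (Ev_comp (by fun_prop) (by fun_prop))
  · exact cp_le (by fun_prop) (by fun_prop)
  · exact cp_eq (Hs_comp (by fun_prop) (by fun_prop) (by fun_prop) (by fun_prop)) (by fun_prop)
  · refine cp_all_lt (p := fun (a : α × ℕ) r => Hs (e a.1) a.2.unpair.1 r (t a.1) = true → r ≤ k a.1)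
      ?_ (by fun_prop)
    refine cp_imp ?_ (cp_le (by fun_prop) (by fun_prop))
    exact cp_eq (Hs_comp (by fun_prop) (by fun_prop) (by fun_prop) (by fun_prop)) (by fun_prop)

theorem V_ge {e k t : ℕ} (h : V e k t) : 2 * e + 2 ≤ k := by
  obtain ⟨n, hn, ⟨r, hr, h1, h2⟩, -, -, -, h5⟩ := h
  have hle : n.unpair.2 ≤ n := Nat.unpair_right_le n
  exact h1.trans (h5 r (by omega) (Hs_mono (by omega) h2))

theorem V_uniq {e k k' : ℕ} (h : ∀ j, ∃ t ≥ j, V e k t) (h' : ∀ j, ∃ t ≥ j, V e k' t) :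
    k ≤ k' := by
  obtain ⟨t, -, n, hn, hE, hm, hk, hH, -⟩ := h 0
  obtain ⟨t', ht', n', hn', hE', hm', hk', hH', hmax'⟩ := h' t
  have : n = n' := by
    rcases lt_trichotomy n n' with h | h | h
    · exact absurd hE (hm' n h)
    · exact h
    · exact absurd hE' (hm n' h)
  subst this
  exact hmax' k (by omega) (Hs_mono ht' hH)

/-- the set of values that are never permanently excluded -/
def SS : Set ℕ := {k | ∃ j, ∀ t ≥ j, ∀ e < k, ¬ V e k t}

theorem not_mem_SS {k : ℕ} (h : k ∉ SS) : ∃ e < k, ∀ j, ∃ t ≥ j, V e k t := by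
  by_contra hc
  push Not at hc
  choose! j hj using hc
  apply h
  refine ⟨(Finset.range k).sup j, fun t ht e he => ?_⟩
  exact hj e he t (le_trans (Finset.le_sup (f := j) (Finset.mem_range.2 he)) ht)

theorem SS_unbounded (K : ℕ) : ∃ k ≥ K, k ∈ SS := by
  by_contra hc
  push Not at hc
  have h1 : ∀ k ≥ K, ∃ e < k, ∀ j, ∃ t ≥ j, V e k t := fun k hk => not_mem_SS (hc k hk)
  choose! f hf1 hf2 using h1
  have h2 : ∀ k ∈ Finset.Icc K (2 * K + 2), f k ∈ Finset.range (K + 1) := by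
    intro k hk
    rw [Finset.mem_Icc] at hk
    obtain ⟨t, -, ht⟩ := hf2 k hk.1 0
    have := V_ge ht
    rw [Finset.mem_range]
    omega
  obtain ⟨x, hx, y, hy, hxy, he⟩ := Finset.exists_ne_map_eq_of_card_lt_of_maps_to
    (s := Finset.Icc K (2 * K + 2)) (t := Finset.range (K + 1)) (f := f)
    (by simp only [Nat.card_Icc, Finset.card_range]; omega) h2
  rw [Finset.mem_Icc] at hx hy
  apply hxy
  have hx2 := hf2 x hx.1
  have hy2 := hf2 y hy.1
  rw [he] at hx2
  exact le_antisymm (V_uniq hx2 hy2) (V_uniq hy2 hx2)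

theorem SS_diag (Q : ℕ → ℕ → Prop) (hQ : REPred fun p : ℕ × ℕ => Q p.1 p.2) (s : ℕ → ℕ)
    (hs : ∀ x r, Q x r ↔ r ≤ s x) : ¬ ∀ k, (∃ x, s x = k) ↔ (k = 0 ∨ k ∈ SS) := by
  intro hall
  obtain ⟨e, he⟩ := wst_univ hQ
  have he' : ∀ x r, Q x r ↔ ∃ t, Hs e x r t = true := fun x r => he (x, r)
  obtain ⟨k, hk, hkS⟩ := SS_unbounded (2 * e + 2)
  obtain ⟨x, hx⟩ := (hall k).2 (Or.inr hkS)
  have hQx : Q x k := (hs x k).2 hx.ge
  obtain ⟨t, ht⟩ := (he' x k).1 hQx
  have hex : ∃ n, Ev e n := by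
    refine ⟨Nat.pair x (max t k), k, ?_, hk, ?_⟩
    · simp only [Nat.unpair_pair]; omega
    · simp only [Nat.unpair_pair]
      exact Hs_mono (le_max_left _ _) ht
  classical
  let n := Nat.find hex
  have hn : Ev e n := Nat.find_spec hex
  have hnm : ∀ m < n, ¬ Ev e m := fun m hm => Nat.find_min hex hm
  let x0 := n.unpair.1
  have hk0 : 2 * e + 2 ≤ s x0 := by
    obtain ⟨r, hr, h1, h2⟩ := hn
    have : Q x0 r := (he' _ _).2 ⟨_, h2⟩
    exact h1.trans ((hs _ _).1 this)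
  obtain ⟨t1, ht1⟩ := (he' x0 (s x0)).1 ((hs _ _).2 le_rfl)
  have hV : ∀ t ≥ max t1 (max (s x0) n), V e (s x0) t := by
    intro t htt
    have h1 : t1 ≤ t := le_trans (le_max_left _ _) htt
    have h2 : s x0 ≤ t := le_trans (le_trans (le_max_left _ _) (le_max_right _ _)) htt
    have h3 : n ≤ t := le_trans (le_trans (le_max_right _ _) (le_max_right _ _)) htt
    refine ⟨n, by omega, hn, hnm, h2, Hs_mono h1 ht1, fun r hr hr2 => ?_⟩
    exact (hs _ _).1 ((he' _ _).2 ⟨_, hr2⟩)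
  have hmem := (hall (s x0)).1 ⟨x0, rfl⟩
  rcases hmem with h0 | ⟨j, hj⟩
  · omega
  · exact hj (max j (max t1 (max (s x0) n))) (le_max_left _ _) e (by omega)
      (hV _ (le_max_right _ _))

/-- The matrix. -/
theorem exists_matrix : ∃ W : ℕ → ℕ → ℕ → Bool,
    (Computable fun p : ℕ × ℕ × ℕ => W p.1 p.2.1 p.2.2) ∧
    (∀ K, ∃ k ≥ K, ∃ j, ∀ t, W k j t = false) ∧
    ∀ Q : ℕ → ℕ → Prop, (REPred fun p : ℕ × ℕ => Q p.1 p.2) → ∀ s : ℕ → ℕ,
      (∀ x r, Q x r ↔ r ≤ s x) →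
      ¬ ∀ k, (∃ x, s x = k) ↔ (k = 0 ∨ ∃ j, ∀ t, W k j t = false) := by
  classical
  have hW : ComputablePred fun p : ℕ × ℕ × ℕ =>
      p.2.1 ≤ p.2.2 ∧ ∃ e < p.1, V e p.1 p.2.2 := by
    refine cp_and (cp_le (by fun_prop) (by fun_prop)) ?_
    refine cp_ex_lt (p := fun (p : ℕ × ℕ × ℕ) e => V e p.1 p.2.2) ?_ (by fun_prop)
    exact V_comp (by fun_prop) (by fun_prop) (by fun_prop)
  have hS : ∀ k, (∃ j, ∀ t, decide (j ≤ t ∧ ∃ e < k, V e k t) = false) ↔ k ∈ SS := by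
    intro k
    constructor
    · rintro ⟨j, hj⟩
      refine ⟨j, fun t ht e he hV => ?_⟩
      have := hj t
      rw [decide_eq_false_iff_not] at this
      exact this ⟨ht, e, he, hV⟩
    · rintro ⟨j, hj⟩
      refine ⟨j, fun t => ?_⟩
      rw [decide_eq_false_iff_not]
      rintro ⟨ht, e, he, hV⟩
      exact hj t ht e he hV
  refine ⟨fun k j t => decide (j ≤ t ∧ ∃ e < k, V e k t), cdecide hW, ?_, ?_⟩
  · intro K
    obtain ⟨k, hk, hkS⟩ := SS_unbounded K
    exact ⟨k, hk, (hS k).2 hkS⟩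
  · intro Q hQ s hs hall
    refine SS_diag Q hQ s hs fun k => ?_
    rw [hall k, hS k]

end Pool.Agent.X234.IA
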