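import Pool.Agent.X234.IA.Ord
import Pool.Agent.X234.IA.Diag

set_option autoImplicit false
set_option linter.deprecated false

namespace Pool.Agent.X234.IA

open Encodable Nat.Partrec Pool.Agent.Helper446.RE Pool.Agent.Helper750.DC Pt

theorem exists_perm {A B : Set ℕ} (hA : A.Infinite) (hA' : Aᶜ.Infinite) (hB : B.Infinite)
    (hB' : Bᶜ.Infinite) : ∃ π : ℕ ≃ ℕ, ∀ m, m ∈ A ↔ π m ∈ B := by
  classical
  have i1 : Infinite {x // x ∈ A} := hA.to_subtype
  have i2 : Infinite {x // ¬ x ∈ A} := hA'.to_subtype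
  have i3 : Infinite {x // x ∈ B} := hB.to_subtype
  have i4 : Infinite {x // ¬ x ∈ B} := hB'.to_subtype
  obtain ⟨e1⟩ := nonempty_equiv_of_countable (α := {x // x ∈ A}) (β := {x // x ∈ B})
  obtain ⟨e2⟩ := nonempty_equiv_of_countable (α := {x // ¬ x ∈ A}) (β := {x // ¬ x ∈ B})
  refine ⟨Equiv.subtypeCongr e1 e2, fun m => ?_⟩
  by_cases h : m ∈ A
  · have : Equiv.subtypeCongr e1 e2 m = e1 ⟨m, h⟩ := by
      simp [Equiv.subtypeCongr, Equiv.sumCompl_symm_apply_of_pos, h]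
    rw [this]
    exact ⟨fun _ => (e1 ⟨m, h⟩).2, fun _ => h⟩
  · have : Equiv.subtypeCongr e1 e2 m = e2 ⟨m, h⟩ := by
      simp [Equiv.subtypeCongr, Equiv.sumCompl_symm_apply_of_neg, h]
    rw [this]
    exact ⟨fun h' => absurd h' h, fun h' => absurd h' (e2 ⟨m, h⟩).2⟩

/-- transferring atoms -/
theorem isAt_iff {γ β : Type} [LinearOrder γ] [LinearOrder β] {ψ : Intal γ → Set β}
    (hinj : Function.Injective ψ) (hsup : ∀ a b, ψ (a ⊔ b) = ψ a ∪ ψ b)
    (hr : Set.range ψ = {X : Set β | ∃ S : Finset β, ∃ b : Bool, X = fset S b}) (X : Intal γ) :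
    IsAt (X : Set γ) ↔ IsAt (ψ X) := by
  have hmono : ∀ a b, a ≤ b ↔ ψ a ⊆ ψ b := by
    intro a b
    rw [← sup_eq_right, ← Set.union_eq_right, ← hsup]
    exact ⟨fun h => by rw [h], fun h => hinj h⟩
  have hmem : ∀ Z, Z ∈ Intal β ↔ ∃ Y, ψ Y = Z := by
    intro Z
    have := Set.ext_iff.1 hr Z
    exact this.symm
  have hbot : ψ ⊥ = ∅ := by
    obtain ⟨Y, hY⟩ := (hmem ∅).1 BooleanSubalgebra.bot_mem
    have := (hmono ⊥ Y).1 bot_le
    rw [hY] at this
    exact Set.subset_empty_iff.1 this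
  have hne : ∀ Y : Intal γ, (Y : Set γ).Nonempty ↔ (ψ Y).Nonempty := by
    intro Y
    rw [Set.nonempty_iff_ne_empty, Set.nonempty_iff_ne_empty, not_iff_not, ← hbot]
    constructor
    · intro h
      have : Y = ⊥ := Subtype.ext h
      rw [this]
    · intro h
      rw [hinj h]
      rfl
  constructor
  · rintro ⟨h1, h2⟩
    refine ⟨(hne X).1 h1, fun Z hZ hZX hZne => ?_⟩
    obtain ⟨Y, rfl⟩ := (hmem Z).1 hZ
    have := h2 (Y : Set γ) Y.2 ((hmono Y X).2 hZX) ((hne Y).2 hZne)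
    rw [Subtype.ext this]
  · rintro ⟨h1, h2⟩
    refine ⟨(hne X).2 h1, fun Z hZ hZX hZne => ?_⟩
    have h3 := h2 (ψ ⟨Z, hZ⟩) ((hmem _).2 ⟨_, rfl⟩) ((hmono ⟨Z, hZ⟩ X).1 hZX)
      ((hne ⟨Z, hZ⟩).1 hZne)
    exact congrArg Subtype.val (hinj h3)

/-- The matrix of the order. -/
def WC (W : ℕ → ℕ → ℕ → Bool) (m t : ℕ) : Bool :=
  !(decide (m - m.sqrt * m.sqrt < m.sqrt.unpair.1)) || W m.sqrt.unpair.1 m.sqrt.unpair.2 t

/-- The matrix of the even columns. -/
def WE (m _t : ℕ) : Bool := decide (m % 2 = 1)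

theorem mem_CWE (m : ℕ) : m ∈ CW WE ↔ m % 2 = 0 := by
  unfold CW WE
  simp

theorem WE_comp : Computable fun x : ℕ × ℕ => WE x.1 x.2 := by
  have h1 : ComputablePred fun x : ℕ × ℕ => x.1 % 2 = 1 :=
    cp_eq (Primrec.nat_mod.to_comp.comp (by fun_prop) (by fun_prop)) (by fun_prop)
  exact cdecide h1

variable {W : ℕ → ℕ → ℕ → Bool}

theorem WC_comp (hW : Computable fun p : ℕ × ℕ × ℕ => W p.1 p.2.1 p.2.2) :
    Computable fun x : ℕ × ℕ => WC W x.1 x.2 := by
  have hs : Computable fun x : ℕ × ℕ => x.1.sqrt := Primrec.nat_sqrt.to_comp.comp (by fun_prop)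
  have h1 : ComputablePred fun x : ℕ × ℕ => x.1 - x.1.sqrt * x.1.sqrt < x.1.sqrt.unpair.1 :=
    cp_lt (by fun_prop) (by fun_prop)
  have h2 : Computable fun x : ℕ × ℕ => decide (x.1 - x.1.sqrt * x.1.sqrt < x.1.sqrt.unpair.1) :=
    cdecide h1
  have h3 : Computable fun x : ℕ × ℕ => W x.1.sqrt.unpair.1 x.1.sqrt.unpair.2 x.2 :=
    hW.comp (g := fun x : ℕ × ℕ => (x.1.sqrt.unpair.1, x.1.sqrt.unpair.2, x.2)) (by fun_prop)
  unfold WC
  fun_prop

theorem mem_CWC (m : ℕ) : m ∈ CW (WC W) ↔ m - m.sqrt * m.sqrt < m.sqrt.unpair.1 ∧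
    ∀ t, W m.sqrt.unpair.1 m.sqrt.unpair.2 t = false := by
  unfold CW WC
  simp only [Set.mem_setOf_eq, Bool.or_eq_false_iff, Bool.not_eq_false', decide_eq_true_eq]
  exact ⟨fun h => ⟨(h 0).1, fun t => (h t).2⟩, fun h t => ⟨h.1, h.2 t⟩⟩

theorem sqrt_seg {n i : ℕ} (h : i ≤ 2 * n) : (n * n + i).sqrt = n := by
  rw [Nat.sqrt_add_eq]
  omega

/-- chain lengths -/
theorem chain_iff (p : Pt (CW (WC W))) (r : ℕ) (hr : 0 < r) :
    (∃ m u, u ≤ r ∧ p = bt _ (m + u) ∧ ∀ v < r, m + v ∈ CW (WC W)) ↔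
      (p.snd = 0 ∧ p.fst - p.fst.sqrt * p.fst.sqrt ≤ p.fst.sqrt.unpair.1 ∧
      (∀ t, W p.fst.sqrt.unpair.1 p.fst.sqrt.unpair.2 t = false) ∧ r ≤ p.fst.sqrt.unpair.1) := by
  have hk : ∀ n : ℕ, n.unpair.1 ≤ n := Nat.unpair_left_le
  constructor
  · rintro ⟨m, u, hu, rfl, h⟩
    have hm := h 0 hr
    rw [add_zero, mem_CWC] at hm
    obtain ⟨n, hn⟩ : ∃ n, m.sqrt = n := ⟨_, rfl⟩
    rw [hn] at hm
    have hnm : n * n ≤ m := by rw [← hn]; exact Nat.sqrt_le m
    have hkn := hk n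
    have key : ∀ v ≤ r, m + v ≤ n * n + n.unpair.1 := by
      intro v hv
      induction v with
      | zero => omega
      | succ v ih =>
        have h1 := ih (by omega)
        have h2 := h v (by omega)
        have h3 : (m + v).sqrt = n := by
          have : m + v = n * n + (m + v - n * n) := by omega
          rw [this]
          exact sqrt_seg (by omega)
        rw [mem_CWC, h3] at h2
        omega
    have h3 : (m + u).sqrt = n := by
      have h4 := key u hu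
      have : m + u = n * n + (m + u - n * n) := by omega
      rw [this]
      exact sqrt_seg (by omega)
    rw [fst_bt, h3]
    refine ⟨rfl, ?_, hm.2, ?_⟩
    · have := key u hu; omega
    · have := key r le_rfl; omega
  · rintro ⟨h1, h2, h3, h4⟩
    obtain ⟨n, hn⟩ : ∃ n, p.fst.sqrt = n := ⟨_, rfl⟩
    rw [hn] at h2 h3 h4
    have hnm : n * n ≤ p.fst := by rw [← hn]; exact Nat.sqrt_le _
    have hkn := hk n
    have key : ∀ m', n * n ≤ m' → m' < n * n + n.unpair.1 → m' ∈ CW (WC W) := by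
      intro m' h5 h6
      have h7 : m'.sqrt = n := by
        have : m' = n * n + (m' - n * n) := by omega
        rw [this]
        exact sqrt_seg (by omega)
      rw [mem_CWC, h7]
      exact ⟨by omega, h3⟩
    by_cases h5 : p.fst - n * n ≤ r
    · refine ⟨n * n, p.fst - n * n, h5, ext' ?_ h1, fun v hv => key _ (by omega) (by omega)⟩
      rw [fst_bt]; omega
    · refine ⟨p.fst - r, r, le_rfl, ext' ?_ h1, fun v hv => key _ (by omega) (by omega)⟩
      rw [fst_bt]; omega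

theorem CWC_inf (hU : ∀ K, ∃ k ≥ K, ∃ j, ∀ t, W k j t = false) : (CW (WC W)).Infinite := by
  rw [Set.infinite_iff_exists_gt]
  intro a
  obtain ⟨k, hk, j, hj⟩ := hU (a + 1)
  have h1 : k ≤ Nat.pair k j := Nat.left_le_pair k j
  have h0 : (Nat.pair k j * Nat.pair k j).sqrt = Nat.pair k j := Nat.sqrt_eq _
  refine ⟨Nat.pair k j * Nat.pair k j, ?_, ?_⟩
  · rw [mem_CWC, h0, Nat.unpair_pair]
    exact ⟨by simp only; omega, hj⟩
  · have : Nat.pair k j ≤ Nat.pair k j * Nat.pair k j := Nat.le_mul_self _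
    omega

theorem CWC_coinf : (CW (WC W))ᶜ.Infinite := by
  rw [Set.infinite_iff_exists_gt]
  intro a
  refine ⟨(a + 1) * (a + 1) + (a + 1), ?_, by nlinarith⟩
  rw [Set.mem_compl_iff, mem_CWC, sqrt_seg (by omega)]
  rintro ⟨h, -⟩
  have := Nat.unpair_left_le (a + 1)
  omega

theorem CWE_inf : (CW WE).Infinite := by
  rw [Set.infinite_iff_exists_gt]
  intro a
  exact ⟨2 * (a + 1), (mem_CWE _).2 (by omega), by omega⟩

theorem CWE_coinf : (CW WE)ᶜ.Infinite := by
  rw [Set.infinite_iff_exists_gt]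
  intro a
  refine ⟨2 * (a + 1) + 1, ?_, by omega⟩
  rw [Set.mem_compl_iff, mem_CWE]
  omega

theorem lset_map {β : Type} [LinearOrder β] (l' : ℕ ≃ β) (L : List ℕ) (b : Bool) :
    lset (L.map l') b = {x : β | Xor' (b = true)
      (Odd (L.filter (fun s => decide (l' s ≤ x))).length)} := by
  unfold lset
  ext x
  rw [Set.mem_setOf_eq, Set.mem_setOf_eq, List.filter_map, List.length_map]
  rfl

theorem adj_re {β : Type} [LinearOrder β] [NoMaxOrder β] (l' : ℕ ≃ β)
    (hl' : ComputablePred fun p : ℕ × ℕ => l' p.1 ≤ l' p.2) {c0 : ℕ} (hc0 : ∀ x, l' c0 ≤ x)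
    (lE : ℕ ≃ Pt (CW WE)) (hlE : ComputablePred fun p : ℕ × ℕ => lE p.1 ≤ lE p.2)
    (g : ℕ × ℕ × ℕ × ℕ → ℕ) (hg : Computable g) (hgl : ∀ x, lE (g x) = nm WE x)
    (e : ℕ ≃ Intal (Pt (CW WE))) (f : ℕ → List ℕ × Bool) (hf : Computable f)
    (hef : ∀ i, (e i : Set (Pt (CW WE))) = lset ((f i).1.map lE) (f i).2)
    (ψ : Intal (Pt (CW WE)) → Set β) (hinj : Function.Injective ψ)
    (hsup : ∀ a b, ψ (a ⊔ b) = ψ a ∪ ψ b)
    (hr : Set.range ψ = {X : Set β | ∃ S : Finset β, ∃ b : Bool, X = fset S b})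
    (c : ℕ → List ℕ × Bool) (hc : Computable c)
    (hcψ : ∀ n, ψ (e n) = lset ((c n).1.map l') (c n).2) :
    REPred fun p : ℕ × ℕ => l' p.1 ⋖ l' p.2 := by
  have hbt : ∀ m, nm WE (m, 0, 0, 0) = bt _ m := by
    intro m
    refine ext' (fst_nm _ _) ?_
    rw [snd_nm]; simp
  have h1 : ComputablePred fun x : (ℕ × ℕ) × ℕ × ℕ =>
      lset ((f x.2.2).1.map lE) (f x.2.2).2 =
        lset (([g (2 * x.2.1, 0, 0, 0), g (2 * x.2.1 + 1, 0, 0, 0)], false).1.map lE)
        ([g (2 * x.2.1, 0, 0, 0), g (2 * x.2.1 + 1, 0, 0, 0)], false).2 := by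
    refine lset_eq_comp (l := lE) hlE (b0 := lE.symm (bt _ 0)) (fun x => ?_) ?_ ?_
    · rw [Equiv.apply_symm_apply]; exact bt_zero_le x
    · fun_prop
    · fun_prop
  have h2 : ComputablePred fun x : (ℕ × ℕ) × ℕ × ℕ =>
      lset ((c x.2.2).1.map l') (c x.2.2).2 =
        lset ((([x.1.1, x.1.2], false) : List ℕ × Bool).1.map l')
        (([x.1.1, x.1.2], false) : List ℕ × Bool).2 := by
    refine lset_eq_comp (l := l') hl' hc0 ?_ ?_
    · fun_prop
    · fun_prop
  have h3 : ComputablePred fun x : (ℕ × ℕ) × ℕ × ℕ => ¬ l' x.1.2 ≤ l' x.1.1 :=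
    cp_not (cp_comp hl' (f := fun x : (ℕ × ℕ) × ℕ × ℕ => (x.1.2, x.1.1)) (by fun_prop))
  have h4 := ex (p := fun (a : ℕ × ℕ) (b : ℕ × ℕ) => (¬ l' a.2 ≤ l' a.1) ∧
    (lset ((f b.2).1.map lE) (f b.2).2 =
        lset (([g (2 * b.1, 0, 0, 0), g (2 * b.1 + 1, 0, 0, 0)], false).1.map lE)
        ([g (2 * b.1, 0, 0, 0), g (2 * b.1 + 1, 0, 0, 0)], false).2) ∧
    (lset ((c b.2).1.map l') (c b.2).2 =
        lset ((([a.1, a.2], false) : List ℕ × Bool).1.map l')
        (([a.1, a.2], false) : List ℕ × Bool).2)) (cp_and h3 (cp_and h1 h2)).to_re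
  refine h4.of_eq fun p => ?_
  simp only [List.map_cons, List.map_nil, hgl, hbt, ← hef, ← hcψ, not_le]
  constructor
  · rintro ⟨⟨m, k⟩, h5, h6, h7⟩
    rw [← Ico_eq_lset h5.le] at h7
    have h8 : bt (CW WE) (2 * m) ⋖ bt (CW WE) (2 * m + 1) :=
      covBy_iff.2 ⟨rfl, rfl, rfl, (mem_CWE _).2 (by simp)⟩
    rw [← Ico_eq_lset h8.lt.le] at h6
    have h9 : IsAt (e k : Set (Pt (CW WE))) := by
      rw [h6]; exact isAt_Ico h8
    rw [isAt_iff hinj hsup hr, h7] at h9
    exact covBy_of_isAt h5 h9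
  · intro h5
    have h6 : Set.Ico (l' p.1) (l' p.2) ∈ Set.range ψ := by
      rw [hr]
      exact Ico_mem _ _
    obtain ⟨Y, hY⟩ := h6
    have h7 : IsAt (ψ Y) := by rw [hY]; exact isAt_Ico h5
    rw [← isAt_iff hinj hsup hr] at h7
    obtain ⟨x, y, hxy, hY2⟩ := exists_covBy Y.2 h7
    rw [covBy_iff, mem_CWE] at hxy
    obtain ⟨hx, hy, hfs, hev⟩ := hxy
    refine ⟨(x.fst / 2, e.symm Y), h5.lt, ?_, ?_⟩
    · dsimp only
      have h8 : 2 * (x.fst / 2) = x.fst := by omega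
      rw [Equiv.apply_symm_apply, h8, ← Ico_eq_lset (le_iff.2 (Or.inl (by simp))), hY2]
      congr 1
      · exact ext' rfl hx
      · exact ext' hfs hy
    · dsimp only
      rw [Equiv.apply_symm_apply, hY, ← Ico_eq_lset h5.lt.le]

/-- chains along an r.e. relation -/
theorem chain_re {A : ℕ → ℕ → Prop} (hA : REPred fun p : ℕ × ℕ => A p.1 p.2) :
    REPred fun p : ℕ × ℕ => ∃ L : List ℕ, L.length = p.2 + 1 ∧ p.1 ∈ L ∧
      ∀ u < p.2, A ((L[u]?).getD 0) ((L[u + 1]?).getD 0) := by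
  refine ex (p := fun (p : ℕ × ℕ) (L : List ℕ) => L.length = p.2 + 1 ∧ p.1 ∈ L ∧
    ∀ u < p.2, A ((L[u]?).getD 0) ((L[u + 1]?).getD 0)) ?_
  refine Pool.Agent.Helper446.RE.and
    (Pool.Agent.Helper446.RE.eq (by fun_prop) (by fun_prop))
    (Pool.Agent.Helper446.RE.and (mem_list (by fun_prop) (by fun_prop)) ?_)
  refine all_lt (p := fun (x : (ℕ × ℕ) × List ℕ) u =>
    A ((x.2[u]?).getD 0) ((x.2[u + 1]?).getD 0)) ?_ (by fun_prop)
  have h1 : Computable fun x : ((ℕ × ℕ) × List ℕ) × ℕ => (x.1.2[x.2]?).getD 0 :=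
    Computable.option_getD (by fun_prop) (by fun_prop)
  have h2 : Computable fun x : ((ℕ × ℕ) × List ℕ) × ℕ => (x.1.2[x.2 + 1]?).getD 0 :=
    Computable.option_getD (by fun_prop) (by fun_prop)
  exact Pool.Agent.Helper446.RE.comp hA (f := fun x : ((ℕ × ℕ) × List ℕ) × ℕ =>
    ((x.1.2[x.2]?).getD 0, (x.1.2[x.2 + 1]?).getD 0)) (h1.pair h2)

theorem main : ∃ (β : Type) (_ : LinearOrder β) (l : ℕ ≃ β),
      (ComputablePred (fun p : ℕ × ℕ => l p.1 ≤ l p.2)) ∧
      ∃ (α : Type) (_ : BooleanAlgebra α) (e : ℕ ≃ α),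
        (Computable₂ (fun m n : ℕ => e.symm (e m ⊔ e n))) ∧
        (Computable₂ (fun m n : ℕ => e.symm (e m ⊓ e n))) ∧
        (Computable (fun n : ℕ => e.symm (e n)ᶜ)) ∧
        (∃ φ : α → Set β, Function.Injective φ ∧
            (∀ a b, φ (a ⊔ b) = φ a ∪ φ b) ∧
            (∀ a, φ aᶜ = (φ a)ᶜ) ∧
            Set.range φ = {X : Set β | ∃ S : Finset β, ∃ b : Bool,
              X = {x : β | Xor' (b = true) (Odd (S.filter (fun s => s ≤ x)).card)}}) ∧
        ¬ ∃ l' : ℕ ≃ β, ComputablePred (fun p : ℕ × ℕ => l' p.1 ≤ l' p.2) ∧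
          ∃ ψ : α → Set β, Function.Injective ψ ∧
            (∀ a b, ψ (a ⊔ b) = ψ a ∪ ψ b) ∧
            (∀ a, ψ aᶜ = (ψ a)ᶜ) ∧
            Set.range ψ = {X : Set β | ∃ S : Finset β, ∃ b : Bool,
              X = {x : β | Xor' (b = true) (Odd (S.filter (fun s => s ≤ x)).card)}} ∧
            ∃ c : ℕ → List ℕ × Bool, Computable c ∧
              ∀ n : ℕ, ψ (e n) = {x : β | Xor' ((c n).2 = true)
                (Odd ((c n).1.filter (fun s => decide (l' s ≤ x))).length)} := by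
  classical
  obtain ⟨W, hW, hU, hD⟩ := exists_matrix
  obtain ⟨l, hl, -, -, -⟩ := exists_copy (WC W) (WC_comp hW)
  obtain ⟨lE, hlE, g, hg, hgl⟩ := exists_copy WE WE_comp
  obtain ⟨e, f, hf, hef, he1, he2, he3⟩ := exists_pres hlE (b0 := lE.symm (bt _ 0))
    (fun x => by rw [Equiv.apply_symm_apply]; exact bt_zero_le x)
  obtain ⟨π, hπ⟩ := exists_perm CWE_inf CWE_coinf (CWC_inf hU) CWC_coinf
  refine ⟨Pt (CW (WC W)), inferInstance, l, hl, Intal (Pt (CW WE)), inferInstance, e, he1, he2,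
    he3, ⟨fun X => perm π hπ '' (X : Set (Pt (CW WE))), ?_, ?_, ?_, perm_range π hπ⟩, ?_⟩
  · intro X Y h
    exact Subtype.ext ((perm π hπ).injective.image_injective h)
  · intro X Y
    exact Set.image_union _ _ _
  · intro X
    exact Set.image_compl_eq (perm π hπ).bijective
  · rintro ⟨l', hl', ψ, hinj, hsup, -, hr, c, hc, hcψ⟩
    have hadj := adj_re l' hl' (c0 := l'.symm (bt _ 0))
      (fun x => by rw [Equiv.apply_symm_apply]; exact bt_zero_le x) lE hlE g hg hgl e f hf hef ψ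
      hinj hsup hr c hc (fun n => by rw [lset_map]; exact hcψ n)
    let A : ℕ → ℕ → Prop := fun i j => l' i ⋖ l' j
    let Q : ℕ → ℕ → Prop := fun x r => ∃ L : List ℕ, L.length = r + 1 ∧ x ∈ L ∧
      ∀ u < r, A ((L[u]?).getD 0) ((L[u + 1]?).getD 0)
    have hQ : REPred fun p : ℕ × ℕ => Q p.1 p.2 := chain_re hadj
    let s : ℕ → ℕ := fun x => if (l' x).snd = 0 ∧
      (l' x).fst - (l' x).fst.sqrt * (l' x).fst.sqrt ≤ (l' x).fst.sqrt.unpair.1 ∧
      (∀ t, W (l' x).fst.sqrt.unpair.1 (l' x).fst.sqrt.unpair.2 t = false)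
      then (l' x).fst.sqrt.unpair.1 else 0
    have hQs : ∀ x r, Q x r ↔ r ≤ s x := by
      intro x r
      rcases Nat.eq_zero_or_pos r with rfl | hr0
      · refine ⟨fun _ => Nat.zero_le _, fun _ => ⟨[x], rfl, by simp, fun u hu => ?_⟩⟩
        exact absurd hu (Nat.not_lt_zero _)
      · have h1 : r ≤ s x ↔ ((l' x).snd = 0 ∧
            (l' x).fst - (l' x).fst.sqrt * (l' x).fst.sqrt ≤ (l' x).fst.sqrt.unpair.1 ∧
            (∀ t, W (l' x).fst.sqrt.unpair.1 (l' x).fst.sqrt.unpair.2 t = false) ∧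
            r ≤ (l' x).fst.sqrt.unpair.1) := by
          simp only [s]
          split
          · rename_i h; exact ⟨fun h' => ⟨h.1, h.2.1, h.2.2, h'⟩, fun h' => h'.2.2.2⟩
          · rename_i h
            exact ⟨fun h' => by omega, fun h' => absurd ⟨h'.1, h'.2.1, h'.2.2.1⟩ h⟩
        rw [h1, ← chain_iff (l' x) r hr0]
        constructor
        · rintro ⟨L, hL1, hL2, hL3⟩
          have h2 : ∀ u ≤ r, l' ((L[u]?).getD 0) = bt _ ((l' ((L[0]?).getD 0)).fst + u) := by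
            intro u hu
            have h3 : (l' ((L[u]?).getD 0)).snd = 0 := by
              rcases Nat.lt_or_ge u r with h | h
              · exact (covBy_iff.1 (hL3 u h)).1
              · have h4 : u = (r - 1) + 1 := by omega
                rw [h4]
                exact (covBy_iff.1 (hL3 (r - 1) (by omega))).2.1
            refine ext' ?_ h3
            rw [fst_bt]
            clear h3
            induction u with
            | zero => rfl
            | succ u ih =>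
              have h5 := (covBy_iff.1 (hL3 u (by omega))).2.2.1
              rw [h5, ih (by omega)]
              omega
          obtain ⟨u, hu, hux⟩ := List.getElem_of_mem hL2
          refine ⟨(l' ((L[0]?).getD 0)).fst, u, by omega, ?_, fun v hv => ?_⟩
          · rw [← h2 u (by omega), List.getElem?_eq_getElem hu, hux]
            rfl
          · have h6 := (covBy_iff.1 (hL3 v hv)).2.2.2
            rw [h2 v hv.le, fst_bt] at h6
            exact h6
        · rintro ⟨m, u, hu, hx, hm⟩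
          refine ⟨(List.range (r + 1)).map fun v => l'.symm (bt _ (m + v)), by simp, ?_, ?_⟩
          · rw [List.mem_map]
            refine ⟨u, List.mem_range.2 (by omega), ?_⟩
            rw [← hx, Equiv.symm_apply_apply]
          · intro v hv
            have h7 : ∀ w < r + 1, (((List.range (r + 1)).map fun v =>
                l'.symm (bt (CW (WC W)) (m + v)))[w]?).getD 0 = l'.symm (bt _ (m + w)) := by
              intro w hw
              rw [List.getElem?_map, List.getElem?_range hw]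
              rfl
            show l' _ ⋖ l' _
            rw [h7 v (by omega), h7 (v + 1) (by omega), Equiv.apply_symm_apply,
              Equiv.apply_symm_apply, covBy_iff]
            exact ⟨rfl, rfl, rfl, hm v hv⟩
    refine hD Q hQ s hQs fun k => ?_
    constructor
    · rintro ⟨x, rfl⟩
      simp only [s]
      split
      · rename_i h
        exact Or.inr ⟨_, h.2.2⟩
      · exact Or.inl rfl
    · rintro (rfl | ⟨j, hj⟩)
      · refine ⟨l'.symm (bt _ (1 * 1 + 2)), ?_⟩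
        simp only [s]
        rw [Equiv.apply_symm_apply, fst_bt, sqrt_seg (by omega)]
        split
        · rename_i h
          exfalso
          have h1 := h.2.1
          have := Nat.unpair_left_le 1
          omega
        · rfl
      · refine ⟨l'.symm (bt _ (Nat.pair k j * Nat.pair k j)), ?_⟩
        simp only [s]
        have h0 : (Nat.pair k j * Nat.pair k j).sqrt = Nat.pair k j := Nat.sqrt_eq _
        rw [Equiv.apply_symm_apply, fst_bt, h0, Nat.unpair_pair, if_pos]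
        exact ⟨rfl, by omega, hj⟩

end Pool.Agent.X234.IA
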