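import Pool.Agent.Helper446.Comp
import Pool.Agent.Helper750.DC.CP
import Pool.Agent.Helper344.CompList

/-!
Interval algebras: set-theoretic facts and a computable presentation.
-/

set_option autoImplicit false
set_option linter.deprecated false

namespace Pool.Agent.X234.IA

open Encodable Nat.Partrec Pool.Agent.Helper446.RE Pool.Agent.Helper750.DC

section sets

variable {γ : Type} [LinearOrder γ]

/-- the set given by a list of endpoints and a start value -/
def lset (l : List γ) (b : Bool) : Set γ :=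
  {x | Xor' (b = true) (Odd (l.filter (fun s => decide (s ≤ x))).length)}

/-- the set given by a finset of endpoints and a start value -/
def fset (S : Finset γ) (b : Bool) : Set γ :=
  {x : γ | Xor' (b = true) (Odd (S.filter (fun s => s ≤ x)).card)}

theorem mem_lset {l : List γ} {b : Bool} {x : γ} :
    x ∈ lset l b ↔ Xor' (b = true) (Odd (l.filter (fun s => decide (s ≤ x))).length) := Iff.rfl

theorem mem_fset {l : Finset γ} {b : Bool} {x : γ} :
    x ∈ fset l b ↔ Xor' (b = true) (Odd (l.filter (fun s => s ≤ x)).card) := Iff.rfl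

theorem mem_lset_cons {s : γ} {l : List γ} {b : Bool} {x : γ} :
    x ∈ lset (s :: l) b ↔ Xor' (s ≤ x) (x ∈ lset l b) := by
  rw [mem_lset, mem_lset, List.filter_cons]
  by_cases h : s ≤ x
  · simp only [h, decide_true, if_true, List.length_cons, Nat.odd_add_one]
    unfold Xor' Xor
    tauto
  · simp only [h, decide_false]
    unfold Xor' Xor
    simp

theorem mem_lset_nil {b : Bool} {x : γ} : x ∈ lset ([] : List γ) b ↔ b = true := by
  rw [mem_lset]; unfold Xor' Xor; simp

theorem mem_fset_empty {b : Bool} {x : γ} : x ∈ fset (∅ : Finset γ) b ↔ b = true := by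
  rw [mem_fset]; unfold Xor' Xor; simp

theorem mem_fset_insert {s : γ} {S : Finset γ} (hs : s ∉ S) {b : Bool} {x : γ} :
    x ∈ fset (insert s S) b ↔ Xor' (s ≤ x) (x ∈ fset S b) := by
  rw [mem_fset, mem_fset, Finset.filter_insert]
  by_cases h : s ≤ x
  · rw [if_pos h, Finset.card_insert_of_notMem (by simp [hs]), Nat.odd_add_one]
    unfold Xor' Xor
    tauto
  · rw [if_neg h]
    unfold Xor' Xor
    simp [h]

theorem lset_eq_fset (l : List γ) (b : Bool) : ∃ S : Finset γ, lset l b = fset S b := by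
  induction l with
  | nil => exact ⟨∅, by ext x; rw [mem_lset_nil, mem_fset_empty]⟩
  | cons s l ih =>
    obtain ⟨S, hS⟩ := ih
    by_cases h : s ∈ S
    · refine ⟨S.erase s, ?_⟩
      ext x
      have h1 := mem_fset_insert (s := s) (S := S.erase s) (by simp) (b := b) (x := x)
      rw [Finset.insert_erase h] at h1
      rw [mem_lset_cons, hS, h1]
      clear h1
      unfold Xor' Xor
      by_cases h2 : s ≤ x <;> by_cases h3 : x ∈ fset (S.erase s) b <;> simp [h2, h3]
    · refine ⟨insert s S, ?_⟩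
      ext x
      rw [mem_lset_cons, hS, mem_fset_insert h]

theorem fset_eq_lset (S : Finset γ) (b : Bool) : ∃ l : List γ, fset S b = lset l b := by
  classical
  induction S using Finset.induction_on with
  | empty => exact ⟨[], by ext x; rw [mem_lset_nil, mem_fset_empty]⟩
  | insert s S hs ih =>
    obtain ⟨l, hl⟩ := ih
    exact ⟨s :: l, by ext x; rw [mem_lset_cons, mem_fset_insert hs, hl]⟩

theorem lset_not (l : List γ) (b : Bool) : lset l (!b) = (lset l b)ᶜ := by
  ext x
  rw [Set.mem_compl_iff, mem_lset, mem_lset]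
  unfold Xor' Xor
  cases b <;> simp

theorem mem_lset_append {l l' : List γ} {b b' : Bool} {x : γ} :
    x ∈ lset (l ++ l') (xor b b') ↔ Xor' (x ∈ lset l b) (x ∈ lset l' b') := by
  induction l with
  | nil =>
    rw [List.nil_append, mem_lset, mem_lset_nil, mem_lset]
    unfold Xor' Xor
    cases b <;> cases b' <;> simp
  | cons s l ih =>
    rw [List.cons_append, mem_lset_cons, ih, mem_lset_cons]
    clear ih
    unfold Xor' Xor
    by_cases h2 : s ≤ x <;> by_cases h3 : x ∈ lset l b <;> by_cases h4 : x ∈ lset l' b' <;>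
      simp [h2, h3, h4]

/-- intersection with an upper ray -/
theorem inter_Ici (s : γ) (l : List γ) (b : Bool) : ∃ l', Set.Ici s ∩ lset l b = lset l' false := by
  induction l with
  | nil =>
    cases b
    · exact ⟨[], by ext x; simp [mem_lset_nil]⟩
    · refine ⟨[s], ?_⟩
      ext x
      rw [mem_lset_cons, Set.mem_inter_iff, mem_lset_nil, mem_lset_nil, Set.mem_Ici]
      unfold Xor' Xor
      simp
  | cons t l ih =>
    obtain ⟨l', hl'⟩ := ih
    refine ⟨max s t :: l', ?_⟩
    ext x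
    rw [mem_lset_cons, ← hl', Set.mem_inter_iff, Set.mem_inter_iff, mem_lset_cons, Set.mem_Ici,
      max_le_iff]
    unfold Xor' Xor
    tauto

theorem inter_lset (l l' : List γ) (b b' : Bool) :
    ∃ l'' b'', lset l b ∩ lset l' b' = lset l'' b'' := by
  induction l with
  | nil =>
    cases b
    · exact ⟨[], false, by ext x; simp [mem_lset_nil]⟩
    · exact ⟨l', b', by ext x; simp [mem_lset_nil]⟩
  | cons s l ih =>
    obtain ⟨l1, b1, h1⟩ := ih
    obtain ⟨l2, h2⟩ := inter_Ici s l' b'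
    refine ⟨l2 ++ l1, xor false b1, ?_⟩
    ext x
    rw [mem_lset_append, ← h1, ← h2, Set.mem_inter_iff, Set.mem_inter_iff, Set.mem_inter_iff,
      mem_lset_cons, Set.mem_Ici]
    unfold Xor' Xor
    tauto

variable (γ) in
/-- the interval algebra of a linear order -/
def Intal : BooleanSubalgebra (Set γ) where
  carrier := {X | ∃ S : Finset γ, ∃ b : Bool, X = fset S b}
  supClosed' := by
    rintro X ⟨S, b, rfl⟩ Y ⟨T, c, rfl⟩
    obtain ⟨l, hl⟩ := fset_eq_lset S b
    obtain ⟨l', hl'⟩ := fset_eq_lset T c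
    obtain ⟨l2, b2, h2⟩ := inter_lset l l' (!b) (!c)
    obtain ⟨S2, hS2⟩ := lset_eq_fset l2 (!b2)
    refine ⟨S2, !b2, ?_⟩
    rw [← hS2, lset_not, ← h2, lset_not, lset_not, hl, hl', Set.compl_inter, compl_compl,
      compl_compl]
    rfl
  infClosed' := by
    rintro X ⟨S, b, rfl⟩ Y ⟨T, c, rfl⟩
    obtain ⟨l, hl⟩ := fset_eq_lset S b
    obtain ⟨l', hl'⟩ := fset_eq_lset T c
    obtain ⟨l2, b2, h2⟩ := inter_lset l l' b c
    obtain ⟨S2, hS2⟩ := lset_eq_fset l2 b2
    refine ⟨S2, b2, ?_⟩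
    rw [← hS2, ← h2, hl, hl']
    rfl
  compl_mem' := by
    rintro X ⟨S, b, rfl⟩
    obtain ⟨l, hl⟩ := fset_eq_lset S b
    obtain ⟨S2, hS2⟩ := lset_eq_fset l (!b)
    refine ⟨S2, !b, ?_⟩
    rw [← hS2, lset_not, hl]
  bot_mem' := ⟨∅, false, by ext x; rw [mem_fset_empty]; simp⟩

theorem mem_Intal {X : Set γ} : X ∈ Intal γ ↔ ∃ S : Finset γ, ∃ b : Bool, X = fset S b := Iff.rfl

theorem mem_Intal' {X : Set γ} : X ∈ Intal γ ↔ ∃ l b, X = lset l b := by
  rw [mem_Intal]
  constructor
  · rintro ⟨S, b, rfl⟩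
    obtain ⟨l, hl⟩ := fset_eq_lset S b
    exact ⟨l, b, hl⟩
  · rintro ⟨l, b, rfl⟩
    obtain ⟨S, hl⟩ := lset_eq_fset l b
    exact ⟨S, b, hl⟩

theorem Ici_mem (s : γ) : Set.Ici s ∈ Intal γ :=
  mem_Intal'.2 ⟨[s], false, by
    ext x; rw [mem_lset_cons, mem_lset_nil, Set.mem_Ici]; unfold Xor' Xor; simp⟩

theorem Ico_mem (s t : γ) : Set.Ico s t ∈ Intal γ := by
  have h : Set.Ico s t = Set.Ici s ⊓ (Set.Ici t)ᶜ := by
    ext x; simp
  rw [h]
  exact BooleanSubalgebra.inf_mem (Ici_mem s) (BooleanSubalgebra.compl_mem (Ici_mem t))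

theorem Ico_eq_lset {s t : γ} (h : s ≤ t) : Set.Ico s t = lset [s, t] false := by
  ext x
  rw [mem_lset_cons, mem_lset_cons, mem_lset_nil, Set.mem_Ico]
  unfold Xor' Xor
  constructor
  · rintro ⟨h1, h2⟩
    left
    refine ⟨h1, ?_⟩
    simp [h2]
  · rintro (⟨h1, h2⟩ | ⟨h1, h2⟩)
    · refine ⟨h1, ?_⟩
      by_contra h3
      apply h2
      left
      exact ⟨not_lt.1 h3, by simp⟩
    · exfalso
      apply h2
      rcases h1 with ⟨h1, -⟩ | ⟨h1, -⟩
      · exact h.trans h1
      · simp at h1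

theorem lset_const {l : List γ} {b : Bool} {x y : γ} (h : ∀ s ∈ l, s ≤ x ↔ s ≤ y) :
    x ∈ lset l b ↔ y ∈ lset l b := by
  induction l with
  | nil => rw [mem_lset_nil, mem_lset_nil]
  | cons s l ih =>
    rw [mem_lset_cons, mem_lset_cons, ih (fun t ht => h t (List.mem_cons_of_mem _ ht)),
      h s List.mem_cons_self]

/-- test points -/
theorem test_points {l : List γ} {P : γ → Prop}
    (hP : ∀ x y, (∀ s ∈ l, s ≤ x ↔ s ≤ y) → P x → P y) (b : γ) (hb : ∀ x, b ≤ x) :
    (∀ x, P x) ↔ ∀ s ∈ b :: l, P s := by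
  classical
  refine ⟨fun h s _ => h s, fun h x => ?_⟩
  let T : Finset γ := (b :: l).toFinset.filter (· ≤ x)
  have hT : T.Nonempty := ⟨b, by simp [T, hb x]⟩
  obtain ⟨m, hm, hmax⟩ := T.exists_max_image id hT
  have hm1 : m ∈ b :: l := by
    have := (Finset.mem_filter.1 hm).1
    simpa using this
  have hm2 : m ≤ x := (Finset.mem_filter.1 hm).2
  refine hP m x (fun s hs => ?_) (h m hm1)
  constructor
  · intro h1; exact h1.trans hm2
  · intro h1
    refine hmax s (Finset.mem_filter.2 ⟨?_, h1⟩)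
    simp [hs]

/-- right neighbourhoods -/
theorem exists_Ico {X : Set γ} (hX : X ∈ Intal γ) {x y0 : γ} (hx : x ∈ X) (hy : x < y0) :
    ∃ y, x < y ∧ y ≤ y0 ∧ Set.Ico x y ⊆ X := by
  classical
  obtain ⟨l, b, rfl⟩ := mem_Intal'.1 hX
  let T : Finset γ := (y0 :: l).toFinset.filter (x < ·)
  have hT : T.Nonempty := ⟨y0, by simp [T, hy]⟩
  obtain ⟨m, hm, hmin⟩ := T.exists_min_image id hT
  refine ⟨m, (Finset.mem_filter.1 hm).2, hmin y0 (by simp [T, hy]), fun z hz => ?_⟩
  refine (lset_const fun s hs => ?_).1 hx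
  constructor
  · intro h1; exact h1.trans hz.1
  · intro h1
    by_contra h2
    have h3 : s ∈ T := by simp [T, hs, not_le.1 h2]
    have h4 : m ≤ s := hmin s h3
    exact absurd (h4.trans h1) (not_le.2 hz.2)

end sets

end Pool.Agent.X234.IA
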