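import Pool.Agent.X234.IA.Pres

/-!
The linear orders `Pt C`: the sum over all natural numbers `m` of a single point (`m ∈ C`) or of a
copy of the nonnegative rationals (`m ∉ C`).
-/

set_option autoImplicit false
set_option linter.deprecated false

namespace Pool.Agent.X234.IA

open Encodable Nat.Partrec Pool.Agent.Helper446.RE Pool.Agent.Helper750.DC

/-- the points -/
def Pt (C : Set ℕ) : Type := {p : ℕ ×ₗ ℚ≥0 // (ofLex p).2 = 0 ∨ (ofLex p).1 ∉ C}

noncomputable instance (C : Set ℕ) : LinearOrder (Pt C) :=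
  inferInstanceAs (LinearOrder {p : ℕ ×ₗ ℚ≥0 // (ofLex p).2 = 0 ∨ (ofLex p).1 ∉ C})

namespace Pt

variable {C D : Set ℕ}

/-- column -/
def fst (p : Pt C) : ℕ := (ofLex p.1).1
/-- height -/
def snd (p : Pt C) : ℚ≥0 := (ofLex p.1).2
/-- constructor -/
def mk (m : ℕ) (q : ℚ≥0) (h : q = 0 ∨ m ∉ C) : Pt C := ⟨toLex (m, q), h⟩
/-- bottom point of a column -/
def bt (C : Set ℕ) (m : ℕ) : Pt C := mk m 0 (Or.inl rfl)

@[simp] theorem fst_mk (m : ℕ) (q : ℚ≥0) (h : q = 0 ∨ m ∉ C) : (mk m q h).fst = m := rfl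
@[simp] theorem snd_mk (m : ℕ) (q : ℚ≥0) (h : q = 0 ∨ m ∉ C) : (mk m q h).snd = q := rfl
@[simp] theorem fst_bt (m : ℕ) : (bt C m).fst = m := rfl
@[simp] theorem snd_bt (m : ℕ) : (bt C m).snd = 0 := rfl

theorem prop (p : Pt C) : p.snd = 0 ∨ p.fst ∉ C := p.2

theorem ext' {p q : Pt C} (h1 : p.fst = q.fst) (h2 : p.snd = q.snd) : p = q := by
  apply Subtype.ext
  exact congrArg toLex (Prod.ext h1 h2)

theorem le_iff {p q : Pt C} : p ≤ q ↔ p.fst < q.fst ∨ p.fst = q.fst ∧ p.snd ≤ q.snd :=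
  Prod.Lex.le_iff

theorem lt_iff {p q : Pt C} : p < q ↔ p.fst < q.fst ∨ p.fst = q.fst ∧ p.snd < q.snd :=
  Prod.Lex.lt_iff

theorem bt_zero_le (p : Pt C) : bt C 0 ≤ p := by
  rw [le_iff]
  rcases Nat.eq_zero_or_pos p.fst with h | h
  · right; exact ⟨h.symm, by simp⟩
  · left; exact h

instance : Infinite (Pt C) := Infinite.of_injective (bt C) fun _ _ h => congrArg fst h

theorem covBy_iff {x y : Pt C} : x ⋖ y ↔ x.snd = 0 ∧ y.snd = 0 ∧ y.fst = x.fst + 1 ∧ x.fst ∈ C := by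
  constructor
  · intro h
    have hlt := h.1
    have hno := h.2
    rw [lt_iff] at hlt
    rcases hlt with hlt | ⟨h1, h2⟩
    · have hC : x.fst ∈ C := by
        by_contra hC
        have := @hno (mk x.fst (x.snd + 1) (Or.inr hC))
          (lt_iff.2 (Or.inr ⟨rfl, by simp⟩))
        exact this (lt_iff.2 (Or.inl hlt))
      have hx : x.snd = 0 := x.prop.resolve_right (by simpa using hC)
      have h1 : y.fst = x.fst + 1 := by
        by_contra hne
        have := @hno (bt C (x.fst + 1)) (lt_iff.2 (Or.inl (by simp)))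
        exact this (lt_iff.2 (Or.inl (by simp only [fst_bt]; omega)))
      refine ⟨hx, ?_, h1, hC⟩
      by_contra hy
      have := @hno (bt C y.fst) (lt_iff.2 (Or.inl (by simpa using hlt)))
      exact this (lt_iff.2 (Or.inr ⟨rfl, by simpa using pos_iff_ne_zero.2 hy⟩))
    · exfalso
      have hy : y.fst ∉ C := by
        refine y.prop.resolve_left fun h => ?_
        rw [h] at h2
        exact absurd h2 (by simp)
      obtain ⟨r, hr1, hr2⟩ := exists_between h2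
      exact @hno (mk y.fst r (Or.inr hy)) (lt_iff.2 (Or.inr ⟨h1, hr1⟩))
        (lt_iff.2 (Or.inr ⟨rfl, hr2⟩))
  · rintro ⟨h1, h2, h3, h4⟩
    refine ⟨lt_iff.2 (Or.inl (by omega)), fun z hz1 hz2 => ?_⟩
    rw [lt_iff] at hz1 hz2
    have h5 : z.fst < y.fst := by
      rcases hz2 with h | ⟨-, h⟩
      · exact h
      · rw [h2] at h; exact absurd h (by simp)
    rcases hz1 with h | ⟨h, h'⟩
    · omega
    · rw [h1] at h'
      have h6 : z.fst ∉ C := z.prop.resolve_left h'.ne'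
      rw [← h] at h6
      exact h6 h4

instance : NoMaxOrder (Pt C) := ⟨fun p => ⟨bt C (p.fst + 1), lt_iff.2 (Or.inl (by simp))⟩⟩

/-! ### names -/

variable (W : ℕ → ℕ → Bool)

/-- the set of columns with one point -/
def CW : Set ℕ := {m | ∀ t, W m t = false}

/-- the point named by a quadruple -/
def nm (x : ℕ × ℕ × ℕ × ℕ) : Pt (CW W) :=
  if h : W x.1 x.2.2.2 = true then
    mk x.1 ((x.2.1 : ℚ≥0) / ((x.2.2.1 : ℚ≥0) + 1)) (Or.inr fun h' => by
      have := h' x.2.2.2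
      rw [h] at this
      exact absurd this (by simp))
  else mk x.1 0 (Or.inl rfl)

theorem fst_nm (x : ℕ × ℕ × ℕ × ℕ) : (nm W x).fst = x.1 := by
  unfold nm
  split <;> rfl

theorem snd_nm (x : ℕ × ℕ × ℕ × ℕ) :
    (nm W x).snd = (((bif W x.1 x.2.2.2 then x.2.1 else 0 : ℕ)) : ℚ≥0) / ((x.2.2.1 : ℚ≥0) + 1) := by
  unfold nm
  split
  · rename_i h; rw [h]; rfl
  · rename_i h
    rw [Bool.not_eq_true] at h
    rw [h]; simp

theorem nm_surj : Function.Surjective (nm W) := by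
  intro p
  by_cases h : p.snd = 0
  · refine ⟨(p.fst, 0, 0, 0), ext' (fst_nm _ _) ?_⟩
    rw [snd_nm, h]
    simp
  · have h2 : p.fst ∉ CW W := p.prop.resolve_left h
    have h3 : ∃ t, W p.fst t = true := by
      by_contra hc
      push Not at hc
      exact h2 fun t => by simpa using hc t
    obtain ⟨t, ht⟩ := h3
    refine ⟨(p.fst, p.snd.num, p.snd.den - 1, t), ext' (fst_nm _ _) ?_⟩
    rw [snd_nm]
    simp only [ht, cond_true]
    have h4 : ((p.snd.den - 1 : ℕ) : ℚ≥0) + 1 = (p.snd.den : ℚ≥0) := by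
      rw [← Nat.cast_succ]
      congr 1
      have := p.snd.den_pos
      omega
    rw [h4]
    exact NNRat.num_div_den _

theorem nm_le {x y : ℕ × ℕ × ℕ × ℕ} : nm W x ≤ nm W y ↔ x.1 < y.1 ∨ (x.1 = y.1 ∧
    (bif W x.1 x.2.2.2 then x.2.1 else 0) * (y.2.2.1 + 1) ≤
      (bif W y.1 y.2.2.2 then y.2.1 else 0) * (x.2.2.1 + 1)) := by
  rw [le_iff, fst_nm, fst_nm, snd_nm, snd_nm, div_le_div_iff₀ (by positivity) (by positivity)]
  norm_cast

theorem nm_comp (hW : Computable fun x : ℕ × ℕ => W x.1 x.2) :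
    ComputablePred fun p : (ℕ × ℕ × ℕ × ℕ) × (ℕ × ℕ × ℕ × ℕ) => nm W p.1 ≤ nm W p.2 := by
  have h1 : ∀ {α : Type} [Primcodable α] {a b : α → ℕ}, Computable a → Computable b →
      Computable fun x => W (a x) (b x) := by
    intro α _ a b ha hb
    exact hW.comp (ha.pair hb)
  refine cp_of_iff (cp_or (cp_lt (f := fun p : (ℕ × ℕ × ℕ × ℕ) × (ℕ × ℕ × ℕ × ℕ) => p.1.1)
    (g := fun p => p.2.1) (by fun_prop) (by fun_prop)) (cp_and (cp_eq (f := fun p : (ℕ × ℕ × ℕ × ℕ) × (ℕ × ℕ × ℕ × ℕ) => p.1.1)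
    (g := fun p => p.2.1) (by fun_prop) (by fun_prop)) (cp_le (f := fun p : (ℕ × ℕ × ℕ × ℕ) × (ℕ × ℕ × ℕ × ℕ) =>
      (bif W p.1.1 p.1.2.2.2 then p.1.2.1 else 0) * (p.2.2.2.1 + 1))
      (g := fun p => (bif W p.2.1 p.2.2.2.2 then p.2.2.1 else 0) * (p.1.2.2.1 + 1)) ?_ ?_)))
    fun p => nm_le W
  · refine cmul (ccond (h1 (by fun_prop) (by fun_prop)) (by fun_prop) (by fun_prop)) (by fun_prop)
  · refine cmul (ccond (h1 (by fun_prop) (by fun_prop)) (by fun_prop) (by fun_prop)) (by fun_prop)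

/-- computable copies -/
theorem exists_copy (hW : Computable fun x : ℕ × ℕ => W x.1 x.2) :
    ∃ l : ℕ ≃ Pt (CW W), (ComputablePred fun p : ℕ × ℕ => l p.1 ≤ l p.2) ∧
      ∃ g : ℕ × ℕ × ℕ × ℕ → ℕ, Computable g ∧ ∀ x, l (g x) = nm W x := by
  have hle := nm_comp W hW
  have heq : ComputablePred fun p : (ℕ × ℕ × ℕ × ℕ) × (ℕ × ℕ × ℕ × ℕ) => nm W p.1 = nm W p.2 := by
    refine cp_of_iff (cp_and hle (cp_comp hle (f := fun p : (ℕ × ℕ × ℕ × ℕ) × (ℕ × ℕ × ℕ × ℕ) =>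
      (p.2, p.1)) (by fun_prop))) fun p => ?_
    exact le_antisymm_iff
  obtain ⟨l, f, hf, hlf⟩ := exists_enumEquiv (nm W) (nm_surj W) heq
  refine ⟨l, ?_, fun x => l.symm (nm W x), ?_, fun x => by simp⟩
  · refine cp_of_iff (cp_comp hle (f := fun p : ℕ × ℕ => (f p.1, f p.2)) (by fun_prop)) fun p => ?_
    rw [hlf, hlf]
  · refine computable_of_graph (f := fun x => l.symm (nm W x)) ?_
    refine (cp_comp heq (f := fun x : (ℕ × ℕ × ℕ × ℕ) × ℕ => (x.1, f x.2)) (by fun_prop)).to_re.of_eq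
      fun x => ?_
    rw [Equiv.symm_apply_eq, hlf]

/-! ### permuting the columns -/

/-- permutation of columns -/
def perm (π : ℕ ≃ ℕ) (h : ∀ m, m ∈ C ↔ π m ∈ D) : Pt C ≃ Pt D where
  toFun p := mk (π p.fst) p.snd (p.prop.imp id fun h1 => by rwa [← h])
  invFun p := mk (π.symm p.fst) p.snd (p.prop.imp id fun h1 => by rwa [h, Equiv.apply_symm_apply])
  left_inv p := ext' (by simp) (by simp)
  right_inv p := ext' (by simp) (by simp)

theorem mem_col {j : ℕ} {p : Pt D} : p ∈ Set.Ico (bt D j) (bt D (j + 1)) ↔ p.fst = j := by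
  rw [Set.mem_Ico, le_iff, lt_iff]
  simp only [fst_bt, snd_bt]
  constructor
  · rintro ⟨h1, h2⟩
    rcases h2 with h2 | ⟨-, h2⟩
    · rcases h1 with h1 | ⟨h1, -⟩ <;> omega
    · exact absurd h2 (by simp)
  · rintro rfl
    exact ⟨Or.inr ⟨rfl, by simp⟩, Or.inl (by omega)⟩

theorem mem_part {s p : Pt D} : p ∈ Set.Ico (bt D s.fst) s ↔ p.fst = s.fst ∧ p.snd < s.snd := by
  rw [Set.mem_Ico, le_iff, lt_iff]
  simp only [fst_bt, snd_bt]
  constructor
  · rintro ⟨h1, h2⟩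
    rcases h2 with h2 | h2
    · rcases h1 with h1 | ⟨h1, -⟩ <;> omega
    · exact h2
  · rintro ⟨h1, h2⟩
    exact ⟨Or.inr ⟨h1.symm, by simp⟩, Or.inr ⟨h1, h2⟩⟩

theorem perm_Ici (π : ℕ ≃ ℕ) (h : ∀ m, m ∈ C ↔ π m ∈ D) (s : Pt C) :
    perm π h '' Set.Ici s = ((Finset.range s.fst).sup
      (fun i => Set.Ico (bt D (π i)) (bt D (π i + 1))) ⊔
        Set.Ico (bt D (perm π h s).fst) (perm π h s))ᶜ := by
  ext p
  have h0 : ∀ A B : Set (Pt D), p ∈ A ⊔ B ↔ p ∈ A ∨ p ∈ B := fun _ _ => Iff.rfl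
  rw [Equiv.image_eq_preimage_symm, Set.mem_preimage, Set.mem_Ici, Set.mem_compl_iff,
    h0, mem_part, Finset.sup_set_eq_biUnion, Set.mem_iUnion₂, le_iff]
  simp only [mem_col, exists_prop]
  have h1 : ((perm π h).symm p).fst = π.symm p.fst := rfl
  have h2 : ((perm π h).symm p).snd = p.snd := rfl
  have h3 : ((perm π h) s).fst = π s.fst := rfl
  have h4 : ((perm π h) s).snd = s.snd := rfl
  rw [h1, h2, h3, h4]
  constructor
  · rintro h5 (⟨i, hi, h6⟩ | ⟨h6, h7⟩)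
    · rw [Finset.mem_range] at hi
      rw [h6, Equiv.symm_apply_apply] at h5
      rcases h5 with h5 | ⟨h5, -⟩ <;> omega
    · rw [h6, Equiv.symm_apply_apply] at h5
      rcases h5 with h5 | ⟨-, h5⟩
      · omega
      · exact absurd h7 (not_lt.2 h5)
  · intro h5
    push Not at h5
    rcases lt_trichotomy s.fst (π.symm p.fst) with h6 | h6 | h6
    · exact Or.inl h6
    · right
      refine ⟨h6, h5.2 ?_⟩
      rw [h6, Equiv.apply_symm_apply]
    · exfalso
      exact h5.1 _ (Finset.mem_range.2 h6) (by rw [Equiv.apply_symm_apply])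

theorem perm_mem (π : ℕ ≃ ℕ) (h : ∀ m, m ∈ C ↔ π m ∈ D) {X : Set (Pt C)} (hX : X ∈ Intal (Pt C)) :
    perm π h '' X ∈ Intal (Pt D) := by
  have hI : ∀ s : Pt C, perm π h '' Set.Ici s ∈ Intal (Pt D) := by
    intro s
    rw [perm_Ici]
    refine BooleanSubalgebra.compl_mem (BooleanSubalgebra.sup_mem ?_ (Ico_mem _ _))
    refine Finset.sup_induction (p := fun X => X ∈ Intal (Pt D)) (BooleanSubalgebra.bot_mem)
      (fun a ha b hb => BooleanSubalgebra.sup_mem ha hb) fun i _ => Ico_mem _ _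
  obtain ⟨L, b, rfl⟩ := mem_Intal'.1 hX
  clear hX
  induction L with
  | nil =>
    cases b
    · have : lset ([] : List (Pt C)) false = ∅ := by ext x; rw [mem_lset_nil]; simp
      rw [this, Set.image_empty]
      exact BooleanSubalgebra.bot_mem
    · have : lset ([] : List (Pt C)) true = Set.univ := by ext x; rw [mem_lset_nil]; simp
      rw [this, Set.image_univ, Equiv.range_eq_univ]
      exact BooleanSubalgebra.top_mem
  | cons s L ih =>
    have h1 : perm π h '' lset (s :: L) b = (perm π h '' Set.Ici s \ perm π h '' lset L b) ⊔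
        (perm π h '' lset L b \ perm π h '' Set.Ici s) := by
      ext p
      simp only [Equiv.image_eq_preimage_symm, Set.mem_preimage, Set.sup_eq_union, Set.mem_union,
        Set.mem_diff, mem_lset_cons, Set.mem_Ici]
      rfl
    rw [h1]
    exact BooleanSubalgebra.sup_mem (BooleanSubalgebra.sdiff_mem (hI s) ih)
      (BooleanSubalgebra.sdiff_mem ih (hI s))

theorem perm_range (π : ℕ ≃ ℕ) (h : ∀ m, m ∈ C ↔ π m ∈ D) :
    Set.range (fun X : Intal (Pt C) => perm π h '' (X : Set (Pt C))) =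
      {X : Set (Pt D) | ∃ S : Finset (Pt D), ∃ b : Bool, X = fset S b} := by
  ext Y
  constructor
  · rintro ⟨X, rfl⟩
    exact perm_mem π h X.2
  · intro hY
    have h' : ∀ m, m ∈ D ↔ π.symm m ∈ C := fun m => by rw [h, Equiv.apply_symm_apply]
    refine ⟨⟨perm π.symm h' '' Y, perm_mem π.symm h' hY⟩, ?_⟩
    have h1 : ∀ p, perm π h (perm π.symm h' p) = p := fun p => by
      apply ext'
      · show π (π.symm p.fst) = p.fst
        simp
      · rfl
    show perm π h '' (perm π.symm h' '' Y) = Y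
    rw [← Set.image_comp]
    have h2 : (perm π h ∘ perm π.symm h') = id := funext h1
    rw [h2, Set.image_id]

end Pt

section atoms

variable {γ : Type} [LinearOrder γ]

/-- atoms of the interval algebra -/
def IsAt (X : Set γ) : Prop := X.Nonempty ∧ ∀ Y ∈ Intal γ, Y ⊆ X → Y.Nonempty → Y = X

theorem isAt_Ico {x y : γ} (h : x ⋖ y) : IsAt (Set.Ico x y) := by
  have h1 : Set.Ico x y = {x} := by
    rw [h.Ico_eq]
  refine ⟨⟨x, by rw [h1]; rfl⟩, fun Y _ hY hne => ?_⟩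
  rw [h1] at hY ⊢
  exact (Set.subset_singleton_iff_eq.1 hY).resolve_left hne.ne_empty

theorem covBy_of_isAt {x y : γ} (hxy : x < y) (h : IsAt (Set.Ico x y)) : x ⋖ y := by
  refine ⟨hxy, fun z hz1 hz2 => ?_⟩
  have h1 := h.2 (Set.Ico x z) (Ico_mem x z) (Set.Ico_subset_Ico_right hz2.le) ⟨x, le_rfl, hz1⟩
  have h2 : z ∈ Set.Ico x y := ⟨hz1.le, hz2⟩
  rw [← h1] at h2
  exact lt_irrefl _ h2.2

theorem exists_covBy [NoMaxOrder γ] {X : Set γ} (hX : X ∈ Intal γ) (h : IsAt X) :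
    ∃ x y, x ⋖ y ∧ X = Set.Ico x y := by
  obtain ⟨x, hx⟩ := h.1
  obtain ⟨y0, hy0⟩ := exists_gt x
  obtain ⟨y, hxy, -, hsub⟩ := exists_Ico hX hx hy0
  have h1 := h.2 _ (Ico_mem x y) hsub ⟨x, le_rfl, hxy⟩
  rw [← h1] at h
  exact ⟨x, y, covBy_of_isAt hxy h, h1.symm⟩

end atoms

end Pool.Agent.X234.IA
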