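import Pool.Agent.X234.IA.Alg

/-!
Computable presentations from surjective namings, and the computable presentation of an interval
algebra.
-/

set_option autoImplicit false
set_option linter.deprecated false

namespace Pool.Agent.X234.IA

open Encodable Nat.Partrec Pool.Agent.Helper446.RE Pool.Agent.Helper750.DC

/-- Every infinite set with a surjective naming with decidable equality has a one-to-one computable
numbering. -/
theorem exists_enumEquiv {P γ : Type} [Primcodable P] [Inhabited P] [Infinite γ] (ν : P → γ)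
    (hsurj : Function.Surjective ν) (heq : ComputablePred fun p : P × P => ν p.1 = ν p.2) :
    ∃ e : ℕ ≃ γ, ∃ f : ℕ → P, Computable f ∧ ∀ i, e i = ν (f i) := by
  classical
  let D : ℕ → P := fun n => (decode (α := P) n).getD default
  have hD : Computable D := by
    have h1 : Computable fun n : ℕ => decode (α := P) n := by fun_prop
    exact Computable.option_getD h1 (Computable.const default)
  have hDs : ∀ p : P, D (encode p) = p := fun p => by simp [D]
  let p : ℕ → Prop := fun n => ∀ m < n, ¬ ν (D m) = ν (D n)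
  have hp : ComputablePred p := by
    refine cp_all_lt (p := fun n m => ¬ ν (D m) = ν (D n)) (cp_not ?_) (by fun_prop)
    exact cp_comp heq (f := fun x : ℕ × ℕ => (D x.2, D x.1)) (by fun_prop)
  have hex : ∀ g : γ, ∃ n, ν (D n) = g := by
    intro g
    obtain ⟨q, hq⟩ := hsurj g
    exact ⟨encode q, by rw [hDs, hq]⟩
  have hleast : ∀ g : γ, ∃ n, p n ∧ ν (D n) = g := by
    intro g
    refine ⟨Nat.find (hex g), fun m hm h => ?_, Nat.find_spec (hex g)⟩
    exact Nat.find_min (hex g) hm (h.trans (Nat.find_spec (hex g)))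
  have hinf : (setOf p).Infinite := by
    intro hfin
    have h1 : Finite (setOf p) := hfin
    have : Finite γ := Finite.of_surjective (fun x : setOf p => ν (D x)) fun g => by
      obtain ⟨n, hn, hg⟩ := hleast g
      exact ⟨⟨n, hn⟩, hg⟩
    exact not_finite γ
  have hcount : Computable fun n => Nat.count p n := by
    have h1 : Computable fun n : ℕ => (Nat.rec (motive := fun _ => ℕ) 0
        (fun m acc => acc + (if p m then 1 else 0)) n : ℕ) := by
      refine Computable.nat_rec (f := fun n : ℕ => n) (g := fun _ : ℕ => 0)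
        (h := fun _ y => y.2 + (if p y.1 then 1 else 0)) (by fun_prop) (by fun_prop) ?_
      have h2 : Computable fun x : ℕ × ℕ × ℕ => (if p x.2.1 then (1 : ℕ) else 0) :=
        cite (cp_comp hp (f := fun x : ℕ × ℕ × ℕ => x.2.1) (by fun_prop)) (by fun_prop)
          (by fun_prop)
      show Computable fun x : ℕ × ℕ × ℕ => x.2.2 + (if p x.2.1 then (1 : ℕ) else 0)
      fun_prop
    refine h1.of_eq fun n => ?_
    induction n with
    | zero => simp
    | succ n ih => rw [Nat.count_succ, ← ih]
  have hnth : Computable (Nat.nth p) := by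
    refine computable_of_graph (f := Nat.nth p) ?_
    have h1 : REPred fun x : ℕ × ℕ => p x.2 ∧ Nat.count p x.2 = x.1 :=
      Pool.Agent.Helper446.RE.and ((cp_comp hp (f := fun x : ℕ × ℕ => x.2) (by fun_prop)).to_re)
        (Pool.Agent.Helper446.RE.eq (by fun_prop) (by fun_prop))
    refine h1.of_eq fun x => ?_
    constructor
    · rintro ⟨h1, h2⟩
      rw [← h2, Nat.nth_count h1]
    · intro h
      rw [← h]
      exact ⟨Nat.nth_mem_of_infinite hinf _, Nat.count_nth_of_infinite hinf _⟩
  have hbij : Function.Bijective fun i => ν (D (Nat.nth p i)) := by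
    constructor
    · intro i j hij
      dsimp only at hij
      rcases lt_trichotomy i j with h | h | h
      · exact absurd hij (Nat.nth_mem_of_infinite hinf j _ ((Nat.nth_strictMono hinf) h))
      · exact h
      · exact absurd hij.symm (Nat.nth_mem_of_infinite hinf i _ ((Nat.nth_strictMono hinf) h))
    · intro g
      obtain ⟨n, hn, hg⟩ := hleast g
      refine ⟨Nat.count p n, ?_⟩
      dsimp only
      rw [Nat.nth_count hn, hg]
  exact ⟨Equiv.ofBijective _ hbij, fun i => D (Nat.nth p i), by fun_prop, fun i => rfl⟩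

section pres

variable {γ : Type} [LinearOrder γ] (l : ℕ ≃ γ)

/-- membership as a fold -/
def parB (L : List ℕ) (b : Bool) (s : ℕ) : Bool :=
  L.foldl (fun acc t => xor acc (decide (l t ≤ l s))) b

theorem parB_iff (L : List ℕ) (b : Bool) (s : ℕ) :
    parB l L b s = true ↔ l s ∈ lset (L.map l) b := by
  unfold parB
  induction L generalizing b with
  | nil => rw [List.map_nil, mem_lset_nil, List.foldl_nil]
  | cons t L ih =>
    rw [List.foldl_cons, ih, List.map_cons, mem_lset_cons]
    by_cases h : l t ≤ l s
    · simp only [h, decide_true, Bool.xor_true]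
      rw [lset_not, Set.mem_compl_iff]
      unfold Xor' Xor
      simp
    · simp only [h, decide_false, Bool.xor_false]
      unfold Xor' Xor
      simp

variable {l}

theorem mem_comp (hl : ComputablePred fun p : ℕ × ℕ => l p.1 ≤ l p.2) {α : Type*} [Primcodable α]
    {n : α → List ℕ × Bool} {s : α → ℕ} (hn : Computable n) (hs : Computable s) :
    ComputablePred fun a => l (s a) ∈ lset ((n a).1.map l) (n a).2 := by
  classical
  have h1 : Computable fun a => parB l (n a).1 (n a).2 (s a) := by
    have h2 : Computable₂ fun (a : α) (x : Bool × ℕ) => xor x.1 (decide (l x.2 ≤ l (s a))) := by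
      have h3 : Computable fun x : α × (Bool × ℕ) => decide (l x.2.2 ≤ l (s x.1)) :=
        cdecide (cp_comp hl (f := fun x : α × (Bool × ℕ) => (x.2.2, s x.1)) (by fun_prop))
      have h4 : Computable fun x : α × (Bool × ℕ) => x.2.1 := by fun_prop
      exact (Primrec.dom_bool₂ xor).to_comp.comp h4 h3
    exact Pool.Agent.Helper344.CL.list_foldl (f := fun a => (n a).1) (g := fun a => (n a).2)
      (h := fun a x => xor x.1 (decide (l x.2 ≤ l (s a)))) (by fun_prop) (by fun_prop) h2
  refine cp_of_iff (cp_eq h1 (Computable.const true)) fun a => ?_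
  rw [parB_iff]

/-- Any property which only depends on the position with respect to a computable list is
decidable by test points. -/
theorem test_comp {α : Type*} [Primcodable α] {b0 : ℕ} (hb : ∀ x, l b0 ≤ x)
    {L : α → List ℕ} (hL : Computable L) {P : α → γ → Prop}
    (hP : ComputablePred fun x : α × ℕ => P x.1 (l x.2))
    (hc : ∀ a, ∀ x y, (∀ s ∈ (L a).map l, s ≤ x ↔ s ≤ y) → P a x → P a y) :
    ComputablePred fun a => ∀ x, P a x := by
  have h1 : ComputablePred fun a => ∀ s ∈ b0 :: L a, P a (l s) :=
    cp_all_mem (p := fun a s => P a (l s)) hP (by fun_prop)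
  refine cp_of_iff h1 fun a => ?_
  rw [test_points (hc a) (l b0) hb]
  constructor
  · intro h s hs
    refine h (l s) ?_
    rw [← List.map_cons]
    exact List.mem_map_of_mem hs
  · intro h s hs
    rw [← List.map_cons, List.mem_map] at hs
    obtain ⟨t, ht, rfl⟩ := hs
    exact h t ht

theorem lset_eq_comp (hl : ComputablePred fun p : ℕ × ℕ => l p.1 ≤ l p.2) {b0 : ℕ}
    (hb : ∀ x, l b0 ≤ x) {α : Type*} [Primcodable α]
    {n m : α → List ℕ × Bool} (hn : Computable n) (hm : Computable m) :
    ComputablePred fun a => lset ((n a).1.map l) (n a).2 = lset ((m a).1.map l) (m a).2 := by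
  have h1 := test_comp (l := l) hb (L := fun a => (n a).1 ++ (m a).1)
    (P := fun a x => (x ∈ lset ((n a).1.map l) (n a).2 ↔ x ∈ lset ((m a).1.map l) (m a).2))
    (by fun_prop) ?_ ?_
  · refine cp_of_iff h1 fun a => ?_
    rw [Set.ext_iff]
  · exact cp_iff (mem_comp hl (n := fun x : α × ℕ => n x.1) (s := fun x => x.2) (by fun_prop) (by fun_prop))
      (mem_comp hl (n := fun x : α × ℕ => m x.1) (s := fun x => x.2) (by fun_prop) (by fun_prop))
  · intro a x y h hxy
    rw [List.map_append] at h
    rw [← lset_const (fun s hs => h s (List.mem_append_left _ hs)),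
      ← lset_const (fun s hs => h s (List.mem_append_right _ hs))]
    exact hxy

instance [Infinite γ] : Infinite (Intal γ) :=
  Infinite.of_injective (fun s : γ => (⟨Set.Ici s, Ici_mem s⟩ : Intal γ)) fun s t h => by
    have : Set.Ici s = Set.Ici t := congrArg Subtype.val h
    exact Set.Ici_injective this

/-- The interval algebra of a computable linear order with least element has a computable
presentation with names. -/
theorem exists_pres (hl : ComputablePred fun p : ℕ × ℕ => l p.1 ≤ l p.2) {b0 : ℕ}
    (hb : ∀ x, l b0 ≤ x) : ∃ e : ℕ ≃ Intal γ, ∃ f : ℕ → List ℕ × Bool, Computable f ∧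
      (∀ i, (e i : Set γ) = lset ((f i).1.map l) (f i).2) ∧
      (Computable₂ fun m n : ℕ => e.symm (e m ⊔ e n)) ∧
      (Computable₂ fun m n : ℕ => e.symm (e m ⊓ e n)) ∧
      (Computable fun n : ℕ => e.symm (e n)ᶜ) := by
  have : Infinite γ := Infinite.of_injective l l.injective
  let ν : List ℕ × Bool → Intal γ := fun n => ⟨lset (n.1.map l) n.2, mem_Intal'.2 ⟨_, _, rfl⟩⟩
  have hν : Function.Surjective ν := by
    rintro ⟨X, hX⟩
    obtain ⟨L, b, rfl⟩ := mem_Intal'.1 hX
    refine ⟨(L.map l.symm, b), ?_⟩
    simp only [ν, List.map_map, Equiv.self_comp_symm, List.map_id]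
  obtain ⟨e, f, hf, he⟩ := exists_enumEquiv ν hν (by
    refine cp_of_iff (lset_eq_comp hl hb (n := fun p : (List ℕ × Bool) × (List ℕ × Bool) => p.1)
      (m := fun p => p.2) (by fun_prop) (by fun_prop)) fun p => ?_
    exact Subtype.ext_iff)
  have he' : ∀ i, (e i : Set γ) = lset ((f i).1.map l) (f i).2 := fun i => by rw [he]
  have hmem : ∀ {α : Type} [Primcodable α] {i s : α → ℕ}, Computable i → Computable s →
      ComputablePred fun a => l (s a) ∈ (e (i a) : Set γ) := by
    intro α _ i s hi hs
    refine cp_of_iff (mem_comp hl (n := fun a => f (i a)) (s := s) (by fun_prop) hs) fun a => ?_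
    rw [he']
  have hconst : ∀ (i : ℕ) (x y : γ), (∀ s ∈ (f i).1.map l, s ≤ x ↔ s ≤ y) →
      (x ∈ (e i : Set γ) ↔ y ∈ (e i : Set γ)) := by
    intro i x y h
    rw [he']
    exact lset_const h
  refine ⟨e, f, hf, he', ?_, ?_, ?_⟩
  · refine computable_of_graph (f := fun x : ℕ × ℕ => e.symm (e x.1 ⊔ e x.2)) ?_
    have h1 := test_comp (l := l) hb
      (L := fun x : (ℕ × ℕ) × ℕ => (f x.1.1).1 ++ ((f x.1.2).1 ++ (f x.2).1))
      (P := fun x y => ((y ∈ (e x.1.1 : Set γ) ∨ y ∈ (e x.1.2 : Set γ)) ↔ y ∈ (e x.2 : Set γ)))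
      (by fun_prop) ?_ ?_
    · refine h1.to_re.of_eq fun x => ?_
      rw [Equiv.symm_apply_eq, Subtype.ext_iff, Set.ext_iff]
      exact Iff.rfl
    · exact cp_iff (cp_or (hmem (by fun_prop) (by fun_prop)) (hmem (by fun_prop) (by fun_prop)))
        (hmem (by fun_prop) (by fun_prop))
    · intro a x y h hxy
      simp only [List.map_append] at h
      rw [← hconst a.1.1 x y (fun s hs => h s (List.mem_append_left _ hs)),
        ← hconst a.1.2 x y (fun s hs => h s (List.mem_append_right _ (List.mem_append_left _ hs))),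
        ← hconst a.2 x y (fun s hs => h s (List.mem_append_right _ (List.mem_append_right _ hs)))]
      exact hxy
  · refine computable_of_graph (f := fun x : ℕ × ℕ => e.symm (e x.1 ⊓ e x.2)) ?_
    have h1 := test_comp (l := l) hb
      (L := fun x : (ℕ × ℕ) × ℕ => (f x.1.1).1 ++ ((f x.1.2).1 ++ (f x.2).1))
      (P := fun x y => ((y ∈ (e x.1.1 : Set γ) ∧ y ∈ (e x.1.2 : Set γ)) ↔ y ∈ (e x.2 : Set γ)))
      (by fun_prop) ?_ ?_
    · refine h1.to_re.of_eq fun x => ?_
      rw [Equiv.symm_apply_eq, Subtype.ext_iff, Set.ext_iff]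
      exact Iff.rfl
    · exact cp_iff (cp_and (hmem (by fun_prop) (by fun_prop)) (hmem (by fun_prop) (by fun_prop)))
        (hmem (by fun_prop) (by fun_prop))
    · intro a x y h hxy
      simp only [List.map_append] at h
      rw [← hconst a.1.1 x y (fun s hs => h s (List.mem_append_left _ hs)),
        ← hconst a.1.2 x y (fun s hs => h s (List.mem_append_right _ (List.mem_append_left _ hs))),
        ← hconst a.2 x y (fun s hs => h s (List.mem_append_right _ (List.mem_append_right _ hs)))]
      exact hxy
  · refine computable_of_graph (f := fun x : ℕ => e.symm (e x)ᶜ) ?_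
    have h1 := test_comp (l := l) hb
      (L := fun x : ℕ × ℕ => (f x.1).1 ++ (f x.2).1)
      (P := fun x y => (¬ (y ∈ (e x.1 : Set γ)) ↔ y ∈ (e x.2 : Set γ)))
      (by fun_prop) ?_ ?_
    · refine h1.to_re.of_eq fun x => ?_
      rw [Equiv.symm_apply_eq, Subtype.ext_iff, Set.ext_iff]
      exact Iff.rfl
    · exact cp_iff (cp_not (hmem (by fun_prop) (by fun_prop))) (hmem (by fun_prop) (by fun_prop))
    · intro a x y h hxy
      simp only [List.map_append] at h
      rw [← hconst a.1 x y (fun s hs => h s (List.mem_append_left _ hs)),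
        ← hconst a.2 x y (fun s hs => h s (List.mem_append_right _ hs))]
      exact hxy

end pres

end Pool.Agent.X234.IA
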